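import Pool.Agent.R559.NP.Win
import Pool.Agent.Results.MP_a95293_nt.FewExceptions

/-!
# The `n`-term abc conjecture for the tuples with a divisor of the product in a short window

Let `v ≥ 1` be any sequence with exponent of convergence at most `τ` (for `v_N = N ^ c` this is
`1 / c`, for `v_N = b ^ N` it is `0`), `θ < 1` and `n ≥ 3`. For all `α > 0` outside a set of
Hausdorff dimension at most `τ / (1 - θ)`, so outside a set of dimension zero for `v_N = b ^ N`, there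
is for every `A` an `M` such that EVERY admissible `n`-tuple `x`, for which the product `x_1 ⋯ x_n` is
divisible by an integer `m` from one of the windows `|m - α v_N| ≤ v_N ^ θ` and for which
`max |x_j| ≤ m ^ A`, satisfies `max |x_j| ≤ rad (x_1 ⋯ x_n) ^ M`. For a given `M > 0` this holds in
all but finitely many windows for all `α` outside a set of dimension at most
`(A (1 - 1 / binom(n, ⌊n/2⌋)) / M + τ) / (1 - θ)`.
-/

set_option autoImplicit false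

namespace Pool.Agent.Results.MP_a95293_nt.DivisorsInWindows

/-- An admissible `n`-tuple: coprime integers with sum zero and no vanishing proper sub-sum. -/
def Admissible {n : ℕ} (x : Fin n → ℤ) : Prop :=
  Finset.univ.gcd x = 1 ∧ ∑ i, x i = 0 ∧
    ∀ I : Finset (Fin n), I.Nonempty → I ≠ Finset.univ → ∑ i ∈ I, x i ≠ 0

/-- The radical of `x_1 ⋯ x_n`: the product of the primes dividing it. -/
def rad {n : ℕ} (x : Fin n → ℤ) : ℕ := ∏ p ∈ (∏ i, x i).natAbs.primeFactors, p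

/-- The height `max |x_j|`. -/
noncomputable def height {n : ℕ} (x : Fin n → ℤ) : ℝ := ⨆ i, ((|x i| : ℤ) : ℝ)

/-- the exponent of convergence of the sequence `v` is at most `τ` -/
def ExpLe (v : ℕ → ℝ) (τ : ℝ) : Prop := ∀ t : ℝ, τ < t → Summable (fun N : ℕ => (v N) ^ (-t))

/-- all admissible tuples `x` with `m ∣ x_1 ⋯ x_n` and `max |x_j| ≤ m ^ A` satisfy
`max |x_j| ≤ rad (x_1 ⋯ x_n) ^ M` -/
def Good (n : ℕ) (A M : ℝ) (m : ℕ) : Prop :=
  ∀ x : Fin n → ℤ, Admissible x → (m : ℤ) ∣ ∏ i, x i → height x ≤ (m : ℝ) ^ A →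
    height x ≤ (rad x : ℝ) ^ M

/-- the same for the tuples of pairwise coprime integers -/
def GoodCoprime (n : ℕ) (A M : ℝ) (m : ℕ) : Prop :=
  ∀ x : Fin n → ℤ, Admissible x → (∀ i j, i ≠ j → IsCoprime (x i) (x j)) →
    (m : ℤ) ∣ ∏ i, x i → height x ≤ (m : ℝ) ^ A → height x ≤ (rad x : ℝ) ^ M

variable {n : ℕ}

lemma Admissible.ne_zero (hn : 3 ≤ n) {x : Fin n → ℤ} (hx : Admissible x) (i : Fin n) :
    x i ≠ 0 := by
  have h := hx.2.2 {i} (Finset.singleton_nonempty i) ?_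
  · simpa using h
  · intro h
    have h1 := congrArg Finset.card h
    rw [Finset.card_singleton, Finset.card_univ, Fintype.card_fin] at h1
    omega

lemma exceptions_eq (hn : 3 ≤ n) (M B : ℝ) :
    FewExceptions.exceptions n M B =
      {x | (Admissible x ∧ ¬ height x ≤ (rad x : ℝ) ^ M) ∧ height x ≤ B} := by
  have hn0 : 0 < n := by omega
  have : Nonempty (Fin n) := ⟨⟨0, hn0⟩⟩
  ext x
  simp only [FewExceptions.exceptions, Set.mem_ofPred_eq]
  constructor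
  · rintro ⟨h1, h2, i, h3⟩
    refine ⟨⟨h1, not_le.2 (lt_of_lt_of_le h3 ?_)⟩,
      (Pool.Agent.R559.NP.height_le_iff hn0 x B).2 ?_⟩
    · have := Pool.Agent.R559.NP.abs_le_height x i
      push_cast at this
      exact this
    · intro j
      have := h2 j
      push_cast
      exact this
  · rintro ⟨⟨h1, h2⟩, h3⟩
    rw [not_le] at h2
    refine ⟨h1, ?_, ?_⟩
    · intro j
      have := (Pool.Agent.R559.NP.height_le_iff hn0 x B).1 h3 j
      push_cast at this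
      exact this
    · obtain ⟨i, hi⟩ := exists_eq_ciSup_of_finite (f := fun i => ((|x i| : ℤ) : ℝ))
      refine ⟨i, ?_⟩
      have h4 : (rad x : ℝ) ^ M < ((|x i| : ℤ) : ℝ) := by
        rw [hi]
        exact h2
      push_cast at h4
      exact h4

lemma κ_nonneg (n : ℕ) : 0 ≤ 1 - 1 / (n.choose (n / 2) : ℝ) := by
  have h1 : 1 ≤ n.choose (n / 2) := Nat.choose_pos (Nat.div_le_self n 2)
  have h2 : (1 : ℝ) ≤ (n.choose (n / 2) : ℝ) := by exact_mod_cast h1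
  rw [sub_nonneg, div_le_one (by linarith)]
  exact h2

lemma hcount (hn : 3 ≤ n) {M : ℝ} (hM : 0 < M) (δ : ℝ) (hδ : 0 < δ) :
    ∃ C : ℝ, ∀ B : ℝ, 1 ≤ B →
      {x : Fin n → ℤ | (Admissible x ∧ ¬ height x ≤ (rad x : ℝ) ^ M) ∧ height x ≤ B}.Finite ∧
      (({x : Fin n → ℤ |
        (Admissible x ∧ ¬ height x ≤ (rad x : ℝ) ^ M) ∧ height x ≤ B}.ncard : ℕ) : ℝ) ≤
        C * B ^ ((1 - 1 / (n.choose (n / 2) : ℝ)) / M + δ) := by
  obtain ⟨C, hC⟩ := FewExceptions.all_tuples n hn M δ hM hδ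
  refine ⟨C, fun B hB => ?_⟩
  have h := hC B hB
  rwa [exceptions_eq hn] at h

lemma hcount_coprime (hn : 3 ≤ n) {M : ℝ} (hM : 0 < M) (δ : ℝ) (hδ : 0 < δ) :
    ∃ C : ℝ, ∀ B : ℝ, 1 ≤ B →
      {x : Fin n → ℤ | ((Admissible x ∧ ¬ height x ≤ (rad x : ℝ) ^ M) ∧
        ∀ i j, i ≠ j → IsCoprime (x i) (x j)) ∧ height x ≤ B}.Finite ∧
      (({x : Fin n → ℤ | ((Admissible x ∧ ¬ height x ≤ (rad x : ℝ) ^ M) ∧
        ∀ i j, i ≠ j → IsCoprime (x i) (x j)) ∧ height x ≤ B}.ncard : ℕ) : ℝ) ≤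
        C * B ^ ((1 - 1 / (n : ℝ)) / M + δ) := by
  obtain ⟨C, hC⟩ := FewExceptions.coprime_tuples n hn M δ hM hδ
  obtain ⟨C', hC'⟩ := FewExceptions.all_tuples n hn M δ hM hδ
  refine ⟨C, fun B hB => ?_⟩
  have h1 := (hC' B hB).1
  have h2 := hC B hB
  rw [exceptions_eq hn] at h1 h2
  have he : {x : Fin n → ℤ | ((Admissible x ∧ ¬ height x ≤ (rad x : ℝ) ^ M) ∧
        ∀ i j, i ≠ j → IsCoprime (x i) (x j)) ∧ height x ≤ B} =
      {x ∈ {x : Fin n → ℤ | (Admissible x ∧ ¬ height x ≤ (rad x : ℝ) ^ M) ∧ height x ≤ B} |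
        ∀ i j, i ≠ j → IsCoprime (x i) (x j)} := by
    ext x
    simp only [Set.mem_ofPred_eq]
    tauto
  rw [he]
  exact ⟨h1.subset fun x hx => hx.1, h2⟩

/-- **Theorem.** Let `n ≥ 3`. (1) For all sequences `v ≥ 1` of exponent of convergence at most
`τ ≥ 0` and all `θ < 1` there is a set `E` of Hausdorff dimension at most `τ / (1 - θ)` such that for
each `α > 0` outside `E` and each `A` there is `M` such that for all the integers `m` with
`|m - α v_N| ≤ v_N ^ θ` for some `N` every admissible tuple `x` with `m ∣ x_1 ⋯ x_n` and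
`max |x_j| ≤ m ^ A` satisfies `max |x_j| ≤ rad (x_1 ⋯ x_n) ^ M`. (2) For all `A, M > 0` there is a set
`E` of dimension at most `(A (1 - 1 / binom(n, ⌊n/2⌋)) / M + τ) / (1 - θ)` such that for each `α > 0`
outside `E` and all but finitely many `N` all the integers `m` with `|m - α v_N| ≤ v_N ^ θ` are
`Good n A M`. (3) For tuples of pairwise coprime integers the dimension is at most
`(A (1 - 1 / n) / M + τ) / (1 - θ)`. (4) The sequences `v_N = (N + 1) ^ c` and `v_N = b ^ N` have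
exponent of convergence at most `1 / c` and `0`. -/
theorem result (n : ℕ) (hn : 3 ≤ n) :
    (∀ (v : ℕ → ℝ) (τ θ : ℝ), (∀ N, 1 ≤ v N) → 0 ≤ τ → ExpLe v τ → θ < 1 →
      ∃ E : Set ℝ, dimH E ≤ ENNReal.ofReal (τ / (1 - θ)) ∧ ∀ α : ℝ, 0 < α → α ∉ E → ∀ A : ℝ,
        ∃ M : ℝ, ∀ N m : ℕ, |(m : ℝ) - α * v N| ≤ (v N) ^ θ → Good n A M m) ∧
    (∀ (v : ℕ → ℝ) (τ A θ M : ℝ), (∀ N, 1 ≤ v N) → 0 ≤ τ → ExpLe v τ → 0 < A → θ < 1 → 0 < M →
      ∃ E : Set ℝ, dimH E ≤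
          ENNReal.ofReal ((A * ((1 - 1 / (n.choose (n / 2) : ℝ)) / M) + τ) / (1 - θ)) ∧
        ∀ α : ℝ, 0 < α → α ∉ E → ∃ N₀ : ℕ, ∀ N : ℕ, N₀ ≤ N → ∀ m : ℕ,
          |(m : ℝ) - α * v N| ≤ (v N) ^ θ → Good n A M m) ∧
    (∀ (v : ℕ → ℝ) (τ A θ M : ℝ), (∀ N, 1 ≤ v N) → 0 ≤ τ → ExpLe v τ → 0 < A → θ < 1 → 0 < M →
      ∃ E : Set ℝ, dimH E ≤ ENNReal.ofReal ((A * ((1 - 1 / (n : ℝ)) / M) + τ) / (1 - θ)) ∧
        ∀ α : ℝ, 0 < α → α ∉ E → ∃ N₀ : ℕ, ∀ N : ℕ, N₀ ≤ N → ∀ m : ℕ,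
          |(m : ℝ) - α * v N| ≤ (v N) ^ θ → GoodCoprime n A M m) ∧
    (∀ c : ℝ, 0 < c → ExpLe (fun N : ℕ => ((N : ℝ) + 1) ^ c) (1 / c)) ∧
    (∀ b : ℝ, 1 < b → ExpLe (fun N : ℕ => b ^ N) 0) := by
  have hn0 : 0 < n := by omega
  refine ⟨fun v τ θ hv hτ hE hθ => ?_, fun v τ A θ M hv hτ hE hA hθ hM => ?_,
    fun v τ A θ M hv hτ hE hA hθ hM => ?_,
    fun c hc => Pool.Agent.Y854.GM.expLe_pow c hc, fun b hb => Pool.Agent.Y854.GM.expLe_geom b hb⟩
  · obtain ⟨E, h1, h2⟩ := Pool.Agent.R559.NP.win_all (n := n) hn0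
      (Adm := fun x : Fin n → ℤ => Admissible x)
      (fun x hx => hx.ne_zero hn) (κ_nonneg n)
      (fun M hM δ hδ => hcount hn (lt_of_lt_of_le one_pos hM) δ hδ) hv hτ hE hθ
    refine ⟨E, h1, fun α hα hαE A => ?_⟩
    obtain ⟨M, hM⟩ := h2 α hα hαE A
    exact ⟨M, fun N m hm x hx hd hh => hM N m hm x hx hd hh⟩
  · obtain ⟨E, h1, h2⟩ := Pool.Agent.R559.NP.win_fixed (n := n)
      (Bad := fun x : Fin n → ℤ => Admissible x ∧ ¬ height x ≤ (rad x : ℝ) ^ M)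
      (fun x hx => hx.1.ne_zero hn) (div_nonneg (κ_nonneg n) hM.le) hA
      (fun δ hδ => hcount hn hM δ hδ) hv hτ hE hθ
    refine ⟨E, h1, fun α hα hαE => ?_⟩
    obtain ⟨N₀, hN⟩ := h2 α hα hαE
    refine ⟨N₀, fun N hN1 m hm x hx hd hh => ?_⟩
    by_contra hcon
    exact hN N hN1 m hm x ⟨hx, hcon⟩ hh hd
  · have hs : 0 ≤ (1 - 1 / (n : ℝ)) / M := by
      have h3 : (3 : ℝ) ≤ n := by exact_mod_cast hn
      refine div_nonneg ?_ hM.le
      rw [sub_nonneg, div_le_one (by linarith)]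
      linarith
    obtain ⟨E, h1, h2⟩ := Pool.Agent.R559.NP.win_fixed (n := n)
      (Bad := fun x : Fin n → ℤ => (Admissible x ∧ ¬ height x ≤ (rad x : ℝ) ^ M) ∧
        ∀ i j, i ≠ j → IsCoprime (x i) (x j))
      (fun x hx => hx.1.1.ne_zero hn) hs hA
      (fun δ hδ => hcount_coprime hn hM δ hδ) hv hτ hE hθ
    refine ⟨E, h1, fun α hα hαE => ?_⟩
    obtain ⟨N₀, hN⟩ := h2 α hα hαE
    refine ⟨N₀, fun N hN1 m hm x hx hco hd hh => ?_⟩
    by_contra hcon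
    exact hN N hN1 m hm x ⟨⟨hx, hcon⟩, hco⟩ hh hd

end Pool.Agent.Results.MP_a95293_nt.DivisorsInWindows
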