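import Pool.Agent.R909.RandCong
import Pool.Agent.R479.DA.Lim
import Pool.Agent.Results.MP_a95293_nt.FewExceptions

/-!
# The `n`-term abc conjecture and random residues

Let `N j` be the norms of moduli with a convergent sum of the `N j ^ (-s)`, let `X j` be random
residues, each value of which has probability at most `C * N j ^ (-d)`, `s < d`, and let `φ j` be any
maps from the `n`-tuples of integers to the residues. Almost surely, for every `τ > 0` there is `M`
such that all admissible tuples `x` with `φ j x = X j` for some `j` with `(max |x_i|) ^ τ ≤ N j`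
satisfy `max |x_i| ≤ rad (x_1 ⋯ x_n) ^ M`.
-/

set_option autoImplicit false

namespace Pool.Agent.Results.MP_a95293_nt.RandomResidues

open Filter Topology MeasureTheory

/-- An admissible `n`-tuple: coprime integers with sum zero and no vanishing proper sub-sum. -/
def Admissible {n : ℕ} (x : Fin n → ℤ) : Prop :=
  Finset.univ.gcd x = 1 ∧ ∑ i, x i = 0 ∧
    ∀ I : Finset (Fin n), I.Nonempty → I ≠ Finset.univ → ∑ i ∈ I, x i ≠ 0

/-- The radical of `x_1 ⋯ x_n`: the product of the primes dividing it. -/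
def rad {n : ℕ} (x : Fin n → ℤ) : ℕ := ∏ p ∈ (∏ i, x i).natAbs.primeFactors, p

/-- The height `max |x_j|`. -/
noncomputable def height {n : ℕ} (x : Fin n → ℤ) : ℝ := ⨆ i, ((|x i| : ℤ) : ℝ)

/-- `1 - 1 / binom(n, ⌊n/2⌋)` -/
noncomputable def κ (n : ℕ) : ℝ := 1 - 1 / (n.choose (n / 2) : ℝ)

section basic

variable {n : ℕ} {x : Fin n → ℤ}

lemma abs_le_height (x : Fin n → ℤ) (i : Fin n) : ((|x i| : ℤ) : ℝ) ≤ height x :=
  le_ciSup (f := fun i => ((|x i| : ℤ) : ℝ)) (Set.finite_range _).bddAbove i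

lemma height_le_iff (hn : 3 ≤ n) (x : Fin n → ℤ) (B : ℝ) :
    height x ≤ B ↔ ∀ i, ((|x i| : ℤ) : ℝ) ≤ B := by
  haveI : Nonempty (Fin n) := ⟨⟨0, by omega⟩⟩
  exact ⟨fun h i => (abs_le_height x i).trans h, fun h => ciSup_le h⟩

lemma exists_eq_height (hn : 3 ≤ n) (x : Fin n → ℤ) : ∃ i, ((|x i| : ℤ) : ℝ) = height x := by
  haveI : Nonempty (Fin n) := ⟨⟨0, by omega⟩⟩
  exact exists_eq_ciSup_of_finite (f := fun i => ((|x i| : ℤ) : ℝ))

lemma Admissible.ne_zero (hn : 3 ≤ n) (hx : Admissible x) (i : Fin n) : x i ≠ 0 := by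
  have h := hx.2.2 {i} (Finset.singleton_nonempty i) ?_
  · simpa using h
  · intro h
    have h1 := congrArg Finset.card h
    rw [Finset.card_singleton, Finset.card_univ, Fintype.card_fin] at h1
    omega

lemma Admissible.one_le_height (hn : 3 ≤ n) (hx : Admissible x) : 1 ≤ height x := by
  have h1 : (1 : ℤ) ≤ |x ⟨0, by omega⟩| := Int.one_le_abs (hx.ne_zero hn _)
  exact le_trans (by exact_mod_cast h1) (abs_le_height x ⟨0, by omega⟩)

lemma rad_pos (x : Fin n → ℤ) : 0 < rad x :=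
  Finset.prod_pos fun p hp => (Nat.prime_of_mem_primeFactors hp).pos

/-- an admissible tuple of height one has `n = 2`, or its product is `± 1`; so a tuple with
`rad x = 1` has height one -/
lemma height_le_one_of_rad (hn : 3 ≤ n) (hx : Admissible x) (hr : rad x < 2) : height x ≤ 1 := by
  rw [height_le_iff hn]
  intro i
  have h0 : (∏ i, x i).natAbs ≠ 0 := by
    rw [Int.natAbs_ne_zero]
    exact Finset.prod_ne_zero_iff.2 fun i _ => hx.ne_zero hn i
  have h1 : (∏ i, x i).natAbs = 1 := by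
    by_contra hne
    obtain ⟨p, hp, hpd⟩ := Nat.exists_prime_and_dvd hne
    have hmem : p ∈ (∏ i, x i).natAbs.primeFactors := Nat.mem_primeFactors.2 ⟨hp, hpd, h0⟩
    have h2 : p ≤ rad x := Nat.le_of_dvd (rad_pos x) (Finset.dvd_prod_of_mem _ hmem)
    have := hp.two_le
    omega
  have h2 : (x i).natAbs ∣ 1 := by
    rw [← h1]
    exact Int.natAbs_dvd_natAbs.2 (Finset.dvd_prod_of_mem _ (Finset.mem_univ i))
  have h3 : (x i).natAbs = 1 := Nat.dvd_one.1 h2
  have h4 : |x i| = 1 := by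
    rw [Int.abs_eq_natAbs, h3]
    rfl
  rw [h4]
  simp

end basic

section count

variable {n : ℕ}

lemma exceptions_eq (hn : 3 ≤ n) (M B : ℝ) :
    FewExceptions.exceptions n M B =
      {x | (Admissible x ∧ (rad x : ℝ) ^ M < height x) ∧ height x ≤ B} := by
  ext x
  simp only [FewExceptions.exceptions, Set.mem_ofPred_eq]
  constructor
  · rintro ⟨h1, h2, i, h3⟩
    refine ⟨⟨h1, lt_of_lt_of_le h3 ?_⟩, (height_le_iff hn x B).2 ?_⟩
    · have := abs_le_height x i
      push_cast at this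
      exact this
    · intro j
      have := h2 j
      push_cast
      exact this
  · rintro ⟨⟨h1, h2⟩, h3⟩
    refine ⟨h1, ?_, ?_⟩
    · intro j
      have := (height_le_iff hn x B).1 h3 j
      push_cast at this
      exact this
    · obtain ⟨i, hi⟩ := exists_eq_height hn x
      refine ⟨i, ?_⟩
      rw [← hi] at h2
      push_cast at h2
      exact h2

/-- counting a set of tuples through the subtype -/
lemma count_subtype {P : (Fin n → ℤ) → Prop} {B K : ℝ}
    (hfin : {x | P x ∧ height x ≤ B}.Finite)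
    (hK : (({x | P x ∧ height x ≤ B}.ncard : ℕ) : ℝ) ≤ K) :
    {i : {x // P x} | height i.1 ≤ B}.Finite ∧
      (({i : {x // P x} | height i.1 ≤ B}.ncard : ℕ) : ℝ) ≤ K := by
  have himg : Subtype.val '' {i : {x // P x} | height i.1 ≤ B} = {x | P x ∧ height x ≤ B} := by
    ext x
    simp only [Set.mem_image, Set.mem_ofPred_eq, Subtype.exists, exists_and_left, exists_prop,
      exists_eq_right_right]
    tauto
  have hinj : Set.InjOn Subtype.val {i : {x // P x} | height i.1 ≤ B} :=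
    Subtype.val_injective.injOn
  constructor
  · refine Set.Finite.of_finite_image ?_ hinj
    rw [himg]
    exact hfin
  · rw [← Set.ncard_image_of_injOn hinj, himg]
    exact hK

lemma κ_nonneg (hn : 3 ≤ n) : 0 ≤ κ n := by
  unfold κ
  have h1 : 1 ≤ n.choose (n / 2) := Nat.choose_pos (Nat.div_le_self n 2)
  have h2 : (1 : ℝ) ≤ (n.choose (n / 2) : ℝ) := by exact_mod_cast h1
  rw [sub_nonneg, div_le_one (by linarith)]
  exact h2

/-- the count of the exceptional tuples, for the lemmas on balls -/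
lemma hcount_all (hn : 3 ≤ n) {M : ℝ} (hM : 0 < M) :
    ∀ ε : ℝ, 0 < ε → ∃ C : ℝ, ∀ B : ℝ, 1 ≤ B →
      {i : {x : Fin n → ℤ // Admissible x ∧ (rad x : ℝ) ^ M < height x} | height i.1 ≤ B}.Finite ∧
      (({i : {x : Fin n → ℤ // Admissible x ∧ (rad x : ℝ) ^ M < height x} |
        height i.1 ≤ B}.ncard : ℕ) : ℝ) ≤ C * B ^ (κ n / M + ε) := by
  intro ε hε
  obtain ⟨C, hC⟩ := FewExceptions.all_tuples n hn M ε hM hε
  refine ⟨C, fun B hB => ?_⟩
  obtain ⟨h1, h2⟩ := hC B hB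
  rw [exceptions_eq hn] at h1 h2
  exact count_subtype h1 h2

end count

section finite

variable {n : ℕ}

/-- any finite set of tuples satisfies the inequality with a suitable exponent -/
lemma good_finite (hn : 3 ≤ n) {S : Set (Fin n → ℤ)} (hS : S.Finite)
    (hadm : ∀ x ∈ S, Admissible x) :
    ∃ M : ℝ, 0 ≤ M ∧ ∀ x ∈ S, height x ≤ (rad x : ℝ) ^ M := by
  obtain ⟨B, hB⟩ : ∃ B : ℝ, ∀ x ∈ S, height x ≤ B := by
    obtain ⟨B, hB⟩ := (hS.image height).bddAbove
    exact ⟨B, fun x hx => hB ⟨x, hx, rfl⟩⟩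
  obtain ⟨M, hM⟩ := pow_unbounded_of_one_lt B (one_lt_two : (1 : ℝ) < 2)
  refine ⟨M, Nat.cast_nonneg M, fun x hx => ?_⟩
  by_cases hr : rad x < 2
  · refine (height_le_one_of_rad hn (hadm x hx) hr).trans ?_
    have h1 : (1 : ℝ) ≤ (rad x : ℝ) := by exact_mod_cast rad_pos x
    exact Real.one_le_rpow h1 (Nat.cast_nonneg M)
  · have h2 : (2 : ℝ) ≤ (rad x : ℝ) := by
      have : 2 ≤ rad x := by omega
      exact_mod_cast this
    calc height x ≤ B := hB x hx
      _ ≤ 2 ^ M := hM.le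
      _ = (2 : ℝ) ^ (M : ℝ) := (Real.rpow_natCast _ _).symm
      _ ≤ (rad x : ℝ) ^ (M : ℝ) := Real.rpow_le_rpow (by norm_num) h2 (Nat.cast_nonneg M)

lemma good_mono {x : Fin n → ℤ} {M M' : ℝ} (h : height x ≤ (rad x : ℝ) ^ M) (hM : M ≤ M') :
    height x ≤ (rad x : ℝ) ^ M' := by
  have h1 : (1 : ℝ) ≤ (rad x : ℝ) := by exact_mod_cast rad_pos x
  exact h.trans (Real.rpow_le_rpow_of_exponent_le h1 hM)

end finite

section main

variable {n : ℕ} {J Ω : Type} [MeasurableSpace Ω] {P : Measure Ω} {Rs : J → Type}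
  {N : J → ℝ} {X : ∀ j : J, Ω → Rs j} {φ : ∀ j : J, (Fin n → ℤ) → Rs j}

lemma summable_bad (hn : 3 ≤ n) {M p : ℝ} (hM : 0 < M) (hp : κ n / M < p) :
    Summable fun x : {x : Fin n → ℤ // Admissible x ∧ (rad x : ℝ) ^ M < height x} =>
      height x.1 ^ (-p) := by
  have h0 : 0 ≤ κ n / M := div_nonneg (κ_nonneg hn) hM.le
  obtain ⟨C, hC⟩ := hcount_all hn hM ((p - κ n / M) / 2) (by linarith)
  exact Pool.Agent.R479.DA.summable_heights
    (fun x : {x : Fin n → ℤ // Admissible x ∧ (rad x : ℝ) ^ M < height x} => height x.1)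
    (fun x => x.2.1.one_le_height hn) (s := κ n / M + (p - κ n / M) / 2) (p := p) (C := C)
    (by linarith) (by linarith) hC

theorem part_two (hn : 3 ≤ n) (h0 : ∀ j, 1 ≤ N j) {s d C : ℝ} (hs : s ≤ d)
    (hN : Summable fun j => N j ^ (-s))
    (hX : ∀ j, ∀ r : Rs j, P {ω | X j ω = r} ≤ ENNReal.ofReal (C * N j ^ (-d)))
    {M τ η : ℝ} (hM : 0 < M) (hη : 0 ≤ η) (h : κ n / M + η < (d - s) * τ) :
    (∀ᵐ ω ∂P, {i : J × (Fin n → ℤ) | (Admissible i.2 ∧ (rad i.2 : ℝ) ^ M < height i.2) ∧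
      height i.2 ^ τ ≤ N i.1 ∧ φ i.1 i.2 = X i.1 ω}.Finite) ∧
    ∃ B : ℝ, ∀ y : ℝ, 1 ≤ y →
      P {ω | ∃ i : J × (Fin n → ℤ), (Admissible i.2 ∧ (rad i.2 : ℝ) ^ M < height i.2) ∧
        y ≤ height i.2 ∧ height i.2 ^ τ ≤ N i.1 ∧ φ i.1 i.2 = X i.1 ω} ≤
        ENNReal.ofReal (B * y ^ (-η)) :=
  Pool.Agent.R909.RC.main_subtype (T := Fin n → ℤ) (H := height)
    (Q := fun x => Admissible x ∧ (rad x : ℝ) ^ M < height x)
    (fun x hx => hx.1.one_le_height hn) h0 hs hX hN (p := (d - s) * τ - η) hη (by linarith)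
    (summable_bad hn hM (by linarith))

end main

/-- **Theorem.** Let `n ≥ 3`, let `N j ≥ 1` have a convergent sum of the `N j ^ (-s)`, let `X j` be
random elements of the sets `Rs j`, each value of which has probability at most `C * N j ^ (-d)`,
`s < d` (no independence is assumed), and let `φ j` be any maps from `ℤ ^ n` to `Rs j`.

(1) Almost surely, for every `τ > 0` there is `M` such that every admissible tuple `x` with
`(max |x_i|) ^ τ ≤ N j` and `φ j x = X j` for some `j` satisfies `max |x_i| ≤ rad (x_1 ⋯ x_n) ^ M`.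

(2) If `M > 0`, `η ≥ 0` and `(1 - 1 / binom(n, ⌊n/2⌋)) / M + η < (d - s) τ`, then almost surely there
are only finitely many such pairs `(j, x)` with `max |x_i| > rad (x_1 ⋯ x_n) ^ M`, and the
probability that there is one with `max |x_i| ≥ y` is at most `B y ^ (-η)`. -/
theorem result (n : ℕ) (hn : 3 ≤ n) (J Ω : Type) [MeasurableSpace Ω] (P : Measure Ω)
    (Rs : J → Type) (N : J → ℝ) (X : ∀ j : J, Ω → Rs j) (φ : ∀ j : J, (Fin n → ℤ) → Rs j)
    (s d C : ℝ) (hN : ∀ j, 1 ≤ N j) (hs : s < d) (hsum : Summable fun j => N j ^ (-s))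
    (hX : ∀ j, ∀ r : Rs j, P {ω | X j ω = r} ≤ ENNReal.ofReal (C * N j ^ (-d))) :
    (∀ᵐ ω ∂P, ∀ τ : ℝ, 0 < τ → ∃ M : ℝ, ∀ (j : J) (x : Fin n → ℤ), Admissible x →
      height x ^ τ ≤ N j → φ j x = X j ω → height x ≤ (rad x : ℝ) ^ M) ∧
    (∀ M τ η : ℝ, 0 < M → 0 ≤ η → κ n / M + η < (d - s) * τ →
      (∀ᵐ ω ∂P, {i : J × (Fin n → ℤ) | (Admissible i.2 ∧ (rad i.2 : ℝ) ^ M < height i.2) ∧
        height i.2 ^ τ ≤ N i.1 ∧ φ i.1 i.2 = X i.1 ω}.Finite) ∧
      ∃ B : ℝ, ∀ y : ℝ, 1 ≤ y →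
        P {ω | ∃ i : J × (Fin n → ℤ), (Admissible i.2 ∧ (rad i.2 : ℝ) ^ M < height i.2) ∧
          y ≤ height i.2 ∧ height i.2 ^ τ ≤ N i.1 ∧ φ i.1 i.2 = X i.1 ω} ≤
          ENNReal.ofReal (B * y ^ (-η))) := by
  refine ⟨?_, fun M τ η hM hη h => part_two hn hN hs.le hsum hX hM hη h⟩
  refine Pool.Agent.R909.RC.all_tau (Q := fun x : Fin n → ℤ => Admissible x)
    (G := fun M x => height x ≤ (rad x : ℝ) ^ M) (H := height)
    (fun x hx => Admissible.one_le_height hn hx) (fun x _ M M' h h1 => good_mono h1 h) ?_ ?_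
  · intro S hS hadm
    obtain ⟨M, -, hM⟩ := good_finite hn hS hadm
    exact ⟨M, hM⟩
  · intro k
    have hpos : 0 < (d - s) * (1 / ((k : ℝ) + 1)) := mul_pos (by linarith) (by positivity)
    obtain ⟨M, hM⟩ := exists_gt (max 1 (κ n / ((d - s) * (1 / ((k : ℝ) + 1)))))
    have h1 : 1 < M := lt_of_le_of_lt (le_max_left _ _) hM
    have h2 := lt_of_le_of_lt (le_max_right _ _) hM
    refine ⟨M, ?_⟩
    have h3 : κ n / M + 0 < (d - s) * (1 / ((k : ℝ) + 1)) := by
      rw [add_zero, div_lt_iff₀ (by linarith)]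
      rw [div_lt_iff₀ hpos] at h2
      linarith
    have h4 := (part_two (φ := φ) hn hN hs.le hsum hX (by linarith) le_rfl h3).1
    filter_upwards [h4] with ω hω
    refine hω.subset ?_
    rintro ⟨j, x⟩ ⟨⟨h5, h6⟩, h7⟩
    exact ⟨⟨h5, not_le.1 h6⟩, h7⟩

end Pool.Agent.Results.MP_a95293_nt.RandomResidues
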