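import Pool.Agent.R425.MK.Lim
import Pool.Agent.Results.MP_a95293_nt.FewExceptions

/-!
# The `n`-term abc conjecture at the tuples near a point

Let `n ≥ 3` and let `φ` be any map from the `n`-tuples of integers to a metric space `X`. Outside a
set of points `ξ` of Hausdorff dimension zero, for all `τ > 0` and `A` there is `M` such that all
admissible tuples `x` with `dist (φ x) ξ ≤ A * (max |x_j|) ^ (-τ)` satisfy
`max |x_j| ≤ rad (x_1 ⋯ x_n) ^ M`. For given `M > 0` and `τ > 0` the same holds, with finitely many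
exceptional tuples, outside a set of dimension at most `(1 - 1 / binom(n, ⌊n/2⌋)) / (M τ)`, and
almost everywhere for a measure of dimension larger than this.
-/

set_option autoImplicit false

namespace Pool.Agent.Results.MP_a95293_nt.TuplesNearAPoint

open Filter Topology MeasureTheory

/-- An admissible `n`-tuple: coprime integers with sum zero and no vanishing proper sub-sum. -/
def Admissible {n : ℕ} (x : Fin n → ℤ) : Prop :=
  Finset.univ.gcd x = 1 ∧ ∑ i, x i = 0 ∧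
    ∀ I : Finset (Fin n), I.Nonempty → I ≠ Finset.univ → ∑ i ∈ I, x i ≠ 0

/-- The radical of `x_1 ⋯ x_n`: the product of the primes dividing it. -/
def rad {n : ℕ} (x : Fin n → ℤ) : ℕ := ∏ p ∈ (∏ i, x i).natAbs.primeFactors, p

/-- The height `max |x_j|`. -/
noncomputable def height {n : ℕ} (x : Fin n → ℤ) : ℝ := ⨆ i, ((|x i| : ℤ) : ℝ)

/-- The admissible tuple `x` lies near the point `ξ` (through the map `φ`), with exponent `τ` and
constant `A`. -/
def Near {n : ℕ} {X : Type} [MetricSpace X] (φ : (Fin n → ℤ) → X) (A τ : ℝ) (ξ : X)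
    (x : Fin n → ℤ) : Prop :=
  Admissible x ∧ dist (φ x) ξ ≤ A * height x ^ (-τ)

/-- `1 - 1 / binom(n, ⌊n/2⌋)` -/
noncomputable def κ (n : ℕ) : ℝ := 1 - 1 / (n.choose (n / 2) : ℝ)

section basic

variable {n : ℕ} {x : Fin n → ℤ}

lemma abs_le_height (x : Fin n → ℤ) (i : Fin n) : ((|x i| : ℤ) : ℝ) ≤ height x :=
  le_ciSup (f := fun i => ((|x i| : ℤ) : ℝ)) (Set.finite_range _).bddAbove i

lemma height_le_iff (hn : 3 ≤ n) (x : Fin n → ℤ) (B : ℝ) :
    height x ≤ B ↔ ∀ i, ((|x i| : ℤ) : ℝ) ≤ B := by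
  haveI : Nonempty (Fin n) := ⟨⟨0, by omega⟩⟩
  exact ⟨fun h i => (abs_le_height x i).trans h, fun h => ciSup_le h⟩

lemma exists_eq_height (hn : 3 ≤ n) (x : Fin n → ℤ) : ∃ i, ((|x i| : ℤ) : ℝ) = height x := by
  haveI : Nonempty (Fin n) := ⟨⟨0, by omega⟩⟩
  exact exists_eq_ciSup_of_finite (f := fun i => ((|x i| : ℤ) : ℝ))

lemma Admissible.ne_zero (hn : 3 ≤ n) (hx : Admissible x) (i : Fin n) : x i ≠ 0 := by
  have h := hx.2.2 {i} (Finset.singleton_nonempty i) ?_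
  · simpa using h
  · intro h
    have h1 := congrArg Finset.card h
    rw [Finset.card_singleton, Finset.card_univ, Fintype.card_fin] at h1
    omega

lemma Admissible.one_le_height (hn : 3 ≤ n) (hx : Admissible x) : 1 ≤ height x := by
  have h1 : (1 : ℤ) ≤ |x ⟨0, by omega⟩| := Int.one_le_abs (hx.ne_zero hn _)
  exact le_trans (by exact_mod_cast h1) (abs_le_height x ⟨0, by omega⟩)

lemma rad_pos (x : Fin n → ℤ) : 0 < rad x :=
  Finset.prod_pos fun p hp => (Nat.prime_of_mem_primeFactors hp).pos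

/-- an admissible tuple of height one has `n = 2`, or its product is `± 1`; so a tuple with
`rad x = 1` has height one -/
lemma height_le_one_of_rad (hn : 3 ≤ n) (hx : Admissible x) (hr : rad x < 2) : height x ≤ 1 := by
  rw [height_le_iff hn]
  intro i
  have h0 : (∏ i, x i).natAbs ≠ 0 := by
    rw [Int.natAbs_ne_zero]
    exact Finset.prod_ne_zero_iff.2 fun i _ => hx.ne_zero hn i
  have h1 : (∏ i, x i).natAbs = 1 := by
    by_contra hne
    obtain ⟨p, hp, hpd⟩ := Nat.exists_prime_and_dvd hne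
    have hmem : p ∈ (∏ i, x i).natAbs.primeFactors := Nat.mem_primeFactors.2 ⟨hp, hpd, h0⟩
    have h2 : p ≤ rad x := Nat.le_of_dvd (rad_pos x) (Finset.dvd_prod_of_mem _ hmem)
    have := hp.two_le
    omega
  have h2 : (x i).natAbs ∣ 1 := by
    rw [← h1]
    exact Int.natAbs_dvd_natAbs.2 (Finset.dvd_prod_of_mem _ (Finset.mem_univ i))
  have h3 : (x i).natAbs = 1 := Nat.dvd_one.1 h2
  have h4 : |x i| = 1 := by
    rw [Int.abs_eq_natAbs, h3]
    rfl
  rw [h4]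
  simp

end basic

section count

variable {n : ℕ}

lemma exceptions_eq (hn : 3 ≤ n) (M B : ℝ) :
    FewExceptions.exceptions n M B =
      {x | (Admissible x ∧ (rad x : ℝ) ^ M < height x) ∧ height x ≤ B} := by
  ext x
  simp only [FewExceptions.exceptions, Set.mem_ofPred_eq]
  constructor
  · rintro ⟨h1, h2, i, h3⟩
    refine ⟨⟨h1, lt_of_lt_of_le h3 ?_⟩, (height_le_iff hn x B).2 ?_⟩
    · have := abs_le_height x i
      push_cast at this
      exact this
    · intro j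
      have := h2 j
      push_cast
      exact this
  · rintro ⟨⟨h1, h2⟩, h3⟩
    refine ⟨h1, ?_, ?_⟩
    · intro j
      have := (height_le_iff hn x B).1 h3 j
      push_cast at this
      exact this
    · obtain ⟨i, hi⟩ := exists_eq_height hn x
      refine ⟨i, ?_⟩
      rw [← hi] at h2
      push_cast at h2
      exact h2

/-- counting a set of tuples through the subtype -/
lemma count_subtype {P : (Fin n → ℤ) → Prop} {B K : ℝ}
    (hfin : {x | P x ∧ height x ≤ B}.Finite)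
    (hK : (({x | P x ∧ height x ≤ B}.ncard : ℕ) : ℝ) ≤ K) :
    {i : {x // P x} | height i.1 ≤ B}.Finite ∧
      (({i : {x // P x} | height i.1 ≤ B}.ncard : ℕ) : ℝ) ≤ K := by
  have himg : Subtype.val '' {i : {x // P x} | height i.1 ≤ B} = {x | P x ∧ height x ≤ B} := by
    ext x
    simp only [Set.mem_image, Set.mem_ofPred_eq, Subtype.exists, exists_and_left, exists_prop,
      exists_eq_right_right]
    tauto
  have hinj : Set.InjOn Subtype.val {i : {x // P x} | height i.1 ≤ B} :=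
    Subtype.val_injective.injOn
  constructor
  · refine Set.Finite.of_finite_image ?_ hinj
    rw [himg]
    exact hfin
  · rw [← Set.ncard_image_of_injOn hinj, himg]
    exact hK

lemma κ_nonneg (hn : 3 ≤ n) : 0 ≤ κ n := by
  unfold κ
  have h1 : 1 ≤ n.choose (n / 2) := Nat.choose_pos (Nat.div_le_self n 2)
  have h2 : (1 : ℝ) ≤ (n.choose (n / 2) : ℝ) := by exact_mod_cast h1
  rw [sub_nonneg, div_le_one (by linarith)]
  exact h2

/-- the count of the exceptional tuples, for the lemmas on balls -/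
lemma hcount_all (hn : 3 ≤ n) {M : ℝ} (hM : 0 < M) :
    ∀ ε : ℝ, 0 < ε → ∃ C : ℝ, ∀ B : ℝ, 1 ≤ B →
      {i : {x : Fin n → ℤ // Admissible x ∧ (rad x : ℝ) ^ M < height x} | height i.1 ≤ B}.Finite ∧
      (({i : {x : Fin n → ℤ // Admissible x ∧ (rad x : ℝ) ^ M < height x} |
        height i.1 ≤ B}.ncard : ℕ) : ℝ) ≤ C * B ^ (κ n / M + ε) := by
  intro ε hε
  obtain ⟨C, hC⟩ := FewExceptions.all_tuples n hn M ε hM hε
  refine ⟨C, fun B hB => ?_⟩
  obtain ⟨h1, h2⟩ := hC B hB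
  rw [exceptions_eq hn] at h1 h2
  exact count_subtype h1 h2

lemma hcount_coprime (hn : 3 ≤ n) {M : ℝ} (hM : 0 < M) :
    ∀ ε : ℝ, 0 < ε → ∃ C : ℝ, ∀ B : ℝ, 1 ≤ B →
      {i : {x : Fin n → ℤ // (Admissible x ∧ (rad x : ℝ) ^ M < height x) ∧
        ∀ i j, i ≠ j → IsCoprime (x i) (x j)} | height i.1 ≤ B}.Finite ∧
      (({i : {x : Fin n → ℤ // (Admissible x ∧ (rad x : ℝ) ^ M < height x) ∧
        ∀ i j, i ≠ j → IsCoprime (x i) (x j)} | height i.1 ≤ B}.ncard : ℕ) : ℝ) ≤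
        C * B ^ ((1 - 1 / (n : ℝ)) / M + ε) := by
  intro ε hε
  obtain ⟨C, hC⟩ := FewExceptions.coprime_tuples n hn M ε hM hε
  obtain ⟨C', hC'⟩ := FewExceptions.all_tuples n hn M ε hM hε
  refine ⟨C, fun B hB => ?_⟩
  have h1 := (hC' B hB).1
  have h2 := hC B hB
  rw [exceptions_eq hn] at h1 h2
  have he : {x | ((Admissible x ∧ (rad x : ℝ) ^ M < height x) ∧
      ∀ i j, i ≠ j → IsCoprime (x i) (x j)) ∧ height x ≤ B} =
      {x ∈ {x : Fin n → ℤ | (Admissible x ∧ (rad x : ℝ) ^ M < height x) ∧ height x ≤ B} |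
        ∀ i j, i ≠ j → IsCoprime (x i) (x j)} := by
    ext x
    simp only [Set.mem_ofPred_eq]
    tauto
  refine count_subtype ?_ ?_
  · rw [he]
    exact h1.subset fun x hx => hx.1
  · rw [he]
    exact h2

end count

section general

variable {n : ℕ} {X : Type} [MetricSpace X]

/-- transfer of the finiteness from the subtype, and from a natural number `A` to a real one -/
lemma finite_of_subtype (hn : 3 ≤ n) {P : (Fin n → ℤ) → Prop} (hP : ∀ x, P x → Admissible x)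
    (φ : (Fin n → ℤ) → X) (τ : ℝ) (ξ : X) {A A' : ℝ} (hA : A ≤ A')
    (h : {i : {x // P x} | dist (φ i.1) ξ ≤ A' * height i.1 ^ (-τ)}.Finite) :
    {x | Near φ A τ ξ x ∧ P x}.Finite := by
  refine (h.image Subtype.val).subset ?_
  rintro x ⟨⟨h1, h2⟩, h3⟩
  refine ⟨⟨x, h3⟩, ?_, rfl⟩
  simp only [Set.mem_ofPred_eq]
  refine h2.trans ?_
  have := (hP x h3).one_le_height hn
  have h0 : 0 ≤ height x ^ (-τ) := by positivity
  exact mul_le_mul_of_nonneg_right hA h0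

/-- the dimension bound, for a class `P` of exceptional tuples -/
theorem dim_part (hn : 3 ≤ n) {P : (Fin n → ℤ) → Prop} (hP : ∀ x, P x → Admissible x)
    {s τ : ℝ} (hs : 0 ≤ s) (hτ : 0 < τ)
    (hcount : ∀ ε : ℝ, 0 < ε → ∃ C : ℝ, ∀ B : ℝ, 1 ≤ B →
      {i : {x // P x} | height i.1 ≤ B}.Finite ∧
      (({i : {x // P x} | height i.1 ≤ B}.ncard : ℕ) : ℝ) ≤ C * B ^ (s + ε))
    (φ : (Fin n → ℤ) → X) :
    ∃ E : Set X, dimH E ≤ ENNReal.ofReal (s / τ) ∧
      ∀ ξ : X, ξ ∉ E → ∀ A : ℝ, {x | Near φ A τ ξ x ∧ P x}.Finite := by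
  refine ⟨⋃ k : ℕ, {ξ : X | {i : {x // P x} |
    dist (φ i.1) ξ ≤ ((k : ℝ) + 1) * height i.1 ^ (-τ)}.Infinite}, ?_, ?_⟩
  · rw [dimH_iUnion]
    refine iSup_le fun k => ?_
    exact Pool.Agent.R425.MK.dimH_balls (fun i : {x // P x} => φ i.1) (fun i => height i.1)
      (fun i => (hP i.1 i.2).one_le_height hn) hs hτ (by positivity) hcount
  · intro ξ hξ A
    obtain ⟨k, hk⟩ := exists_nat_ge A
    rw [Set.mem_iUnion] at hξ
    push Not at hξ
    have h := hξ k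
    rw [Set.mem_ofPred_eq, Set.not_infinite] at h
    exact finite_of_subtype hn hP φ τ ξ (by linarith) h

/-- the same almost everywhere -/
theorem ae_part [MeasurableSpace X] (μ : Measure X) {C₀ m : ℝ}
    (hμ : ∀ (x : X) (r : ℝ), 0 < r → μ (Metric.closedBall x r) ≤ ENNReal.ofReal (C₀ * r ^ m))
    (hn : 3 ≤ n) {P : (Fin n → ℤ) → Prop} (hP : ∀ x, P x → Admissible x)
    {s τ : ℝ} (hs : 0 ≤ s) (hsm : s < τ * m)
    (hcount : ∀ ε : ℝ, 0 < ε → ∃ C : ℝ, ∀ B : ℝ, 1 ≤ B →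
      {i : {x // P x} | height i.1 ≤ B}.Finite ∧
      (({i : {x // P x} | height i.1 ≤ B}.ncard : ℕ) : ℝ) ≤ C * B ^ (s + ε))
    (φ : (Fin n → ℤ) → X) :
    ∀ᵐ ξ ∂μ, ∀ A : ℝ, {x | Near φ A τ ξ x ∧ P x}.Finite := by
  have h : ∀ k : ℕ, ∀ᵐ ξ ∂μ, {i : {x // P x} |
      dist (φ i.1) ξ ≤ ((k : ℝ) + 1) * height i.1 ^ (-τ)}.Finite := fun k =>
    Pool.Agent.R425.MK.ae_balls μ hμ (fun i : {x // P x} => φ i.1) (fun i => height i.1)
      (fun i => (hP i.1 i.2).one_le_height hn) hs hsm (by positivity) hcount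
  filter_upwards [ae_all_iff.2 h] with ξ hξ A
  obtain ⟨k, hk⟩ := exists_nat_ge A
  exact finite_of_subtype hn hP φ τ ξ (by linarith) (hξ k)

lemma Near.mono (hn : 3 ≤ n) {φ : (Fin n → ℤ) → X} {A A' τ τ' : ℝ} {ξ : X} {x : Fin n → ℤ}
    (h : Near φ A τ ξ x) (hA : A ≤ A') (hA' : 0 ≤ A') (hτ : τ' ≤ τ) : Near φ A' τ' ξ x := by
  refine ⟨h.1, h.2.trans ?_⟩
  have h1 := h.1.one_le_height hn
  calc A * height x ^ (-τ) ≤ A' * height x ^ (-τ) :=
        mul_le_mul_of_nonneg_right hA (by positivity)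
    _ ≤ A' * height x ^ (-τ') := by
        refine mul_le_mul_of_nonneg_left ?_ hA'
        exact Real.rpow_le_rpow_of_exponent_le h1 (by linarith)

/-- any finite set of tuples satisfies the inequality with a suitable exponent -/
lemma good_finite (hn : 3 ≤ n) {S : Set (Fin n → ℤ)} (hS : S.Finite)
    (hadm : ∀ x ∈ S, Admissible x) :
    ∃ M : ℝ, 0 ≤ M ∧ ∀ x ∈ S, height x ≤ (rad x : ℝ) ^ M := by
  obtain ⟨B, hB⟩ : ∃ B : ℝ, ∀ x ∈ S, height x ≤ B := by
    obtain ⟨B, hB⟩ := (hS.image height).bddAbove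
    exact ⟨B, fun x hx => hB ⟨x, hx, rfl⟩⟩
  obtain ⟨M, hM⟩ := pow_unbounded_of_one_lt B (one_lt_two : (1 : ℝ) < 2)
  refine ⟨M, Nat.cast_nonneg M, fun x hx => ?_⟩
  by_cases hr : rad x < 2
  · refine (height_le_one_of_rad hn (hadm x hx) hr).trans ?_
    have h1 : (1 : ℝ) ≤ (rad x : ℝ) := by exact_mod_cast rad_pos x
    exact Real.one_le_rpow h1 (Nat.cast_nonneg M)
  · have h2 : (2 : ℝ) ≤ (rad x : ℝ) := by
      have : 2 ≤ rad x := by omega
      exact_mod_cast this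
    calc height x ≤ B := hB x hx
      _ ≤ 2 ^ M := hM.le
      _ = (2 : ℝ) ^ (M : ℝ) := (Real.rpow_natCast _ _).symm
      _ ≤ (rad x : ℝ) ^ (M : ℝ) := Real.rpow_le_rpow (by norm_num) h2 (Nat.cast_nonneg M)

lemma good_mono {x : Fin n → ℤ} {M M' : ℝ} (h : height x ≤ (rad x : ℝ) ^ M) (hM : M ≤ M') :
    height x ≤ (rad x : ℝ) ^ M' := by
  have h1 : (1 : ℝ) ≤ (rad x : ℝ) := by exact_mod_cast rad_pos x
  exact h.trans (Real.rpow_le_rpow_of_exponent_le h1 hM)

/-- outside a set of dimension zero the weak `n`-term abc conjecture holds near `ξ` -/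
theorem part_one (hn : 3 ≤ n) (φ : (Fin n → ℤ) → X) :
    ∃ E : Set X, dimH E = 0 ∧ ∀ ξ : X, ξ ∉ E → ∀ A τ : ℝ, 0 < τ →
      ∃ M : ℝ, ∀ x : Fin n → ℤ, Near φ A τ ξ x → height x ≤ (rad x : ℝ) ^ M := by
  have h : ∀ k j : ℕ, ∃ E : Set X,
      dimH E ≤ ENNReal.ofReal (κ n / ((j : ℝ) + 1) / (1 / ((k : ℝ) + 1))) ∧
      ∀ ξ : X, ξ ∉ E → ∀ A : ℝ, {x | Near φ A (1 / ((k : ℝ) + 1)) ξ x ∧
        (Admissible x ∧ (rad x : ℝ) ^ ((j : ℝ) + 1) < height x)}.Finite := by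
    intro k j
    have hj : (0 : ℝ) < (j : ℝ) + 1 := by positivity
    exact dim_part hn (fun x hx => hx.1) (div_nonneg (κ_nonneg hn) hj.le) (by positivity)
      (hcount_all hn hj) φ
  choose E hdim hgood using h
  refine ⟨⋃ k, ⋂ j, E k j, ?_, ?_⟩
  · rw [dimH_iUnion, ENNReal.iSup_eq_zero]
    intro k
    rw [← nonpos_iff_eq_zero]
    have hlim : Tendsto (fun j : ℕ =>
        ENNReal.ofReal (κ n / ((j : ℝ) + 1) / (1 / ((k : ℝ) + 1)))) atTop (𝓝 0) := by
      rw [← ENNReal.ofReal_zero]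
      apply ENNReal.tendsto_ofReal
      have h1 : Tendsto (fun j : ℕ => κ n / ((j : ℝ) + 1)) atTop (𝓝 0) :=
        tendsto_const_nhds.div_atTop
          (tendsto_atTop_add_const_right _ _ tendsto_natCast_atTop_atTop)
      have h5 := h1.div_const (1 / ((k : ℝ) + 1))
      rwa [zero_div] at h5
    exact ge_of_tendsto' hlim fun j => (dimH_mono (Set.iInter_subset _ j)).trans (hdim k j)
  · intro ξ hξ A τ hτ
    obtain ⟨k, hk⟩ := exists_nat_ge (1 / τ)
    have hk' : 1 / ((k : ℝ) + 1) ≤ τ := by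
      rw [div_le_iff₀ (by positivity)]
      rw [div_le_iff₀ hτ] at hk
      nlinarith
    have h1 : ξ ∉ ⋂ j, E k j := fun hcon => hξ (Set.mem_iUnion.2 ⟨k, hcon⟩)
    rw [Set.mem_iInter] at h1
    push Not at h1
    obtain ⟨j, hj⟩ := h1
    obtain ⟨M', -, hM'⟩ := good_finite hn (hgood k j ξ hj (max A 0)) (fun t ht => ht.1.1)
    refine ⟨max ((j : ℝ) + 1) M', fun x hx => ?_⟩
    by_cases hg : height x ≤ (rad x : ℝ) ^ ((j : ℝ) + 1)
    · exact good_mono hg (le_max_left _ _)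
    · exact good_mono (hM' x ⟨hx.mono hn (le_max_left _ _) (le_max_right _ _) hk', hx.1,
        not_le.1 hg⟩) (le_max_right _ _)

end general

/-- **Theorem.** Let `n ≥ 3` and let `φ` be any map from `ℤ ^ n` to a metric space `X`.
(1) There is a set `E` of Hausdorff dimension zero such that for every `ξ` outside `E`, all `A` and
all `τ > 0` there is `M` such that every admissible `x` with
`dist (φ x) ξ ≤ A * (max |x_j|) ^ (-τ)` satisfies `max |x_j| ≤ rad (x_1 ⋯ x_n) ^ M`.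
(2) For all `M > 0` and `τ > 0` there is a set `E` of dimension at most
`(1 - 1 / binom(n, ⌊n/2⌋)) / (M τ)` such that for every `ξ` outside `E` and every `A` all but finitely
many of these `x` satisfy `max |x_j| ≤ rad (x_1 ⋯ x_n) ^ M`.
(3) For the `x` with pairwise coprime coordinates the dimension is at most `(1 - 1 / n) / (M τ)`.
(4) If `μ` is a measure on `X` with `μ (ball of radius r) ≤ C₀ r ^ m`, the conclusion of (2) holds for
`μ`-almost every `ξ` when `(1 - 1 / binom(n, ⌊n/2⌋)) / M < τ m`. -/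
theorem result (n : ℕ) (hn : 3 ≤ n) (X : Type) [MetricSpace X] (φ : (Fin n → ℤ) → X) :
    (∃ E : Set X, dimH E = 0 ∧ ∀ ξ : X, ξ ∉ E → ∀ A τ : ℝ, 0 < τ →
      ∃ M : ℝ, ∀ x : Fin n → ℤ, Near φ A τ ξ x → height x ≤ (rad x : ℝ) ^ M) ∧
    (∀ M τ : ℝ, 0 < M → 0 < τ → ∃ E : Set X,
      dimH E ≤ ENNReal.ofReal ((1 - 1 / (n.choose (n / 2) : ℝ)) / (M * τ)) ∧
      ∀ ξ : X, ξ ∉ E → ∀ A : ℝ,
        {x : Fin n → ℤ | Near φ A τ ξ x ∧ ¬ height x ≤ (rad x : ℝ) ^ M}.Finite) ∧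
    (∀ M τ : ℝ, 0 < M → 0 < τ → ∃ E : Set X,
      dimH E ≤ ENNReal.ofReal ((1 - 1 / (n : ℝ)) / (M * τ)) ∧
      ∀ ξ : X, ξ ∉ E → ∀ A : ℝ,
        {x : Fin n → ℤ | Near φ A τ ξ x ∧ (∀ i j, i ≠ j → IsCoprime (x i) (x j)) ∧
          ¬ height x ≤ (rad x : ℝ) ^ M}.Finite) ∧
    (∀ (_ : MeasurableSpace X) (μ : Measure X) (C₀ m : ℝ),
      (∀ (x : X) (r : ℝ), 0 < r → μ (Metric.closedBall x r) ≤ ENNReal.ofReal (C₀ * r ^ m)) →
      ∀ M τ : ℝ, 0 < M → (1 - 1 / (n.choose (n / 2) : ℝ)) / M < τ * m →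
      ∀ᵐ ξ ∂μ, ∀ A : ℝ,
        {x : Fin n → ℤ | Near φ A τ ξ x ∧ ¬ height x ≤ (rad x : ℝ) ^ M}.Finite) := by
  refine ⟨part_one hn φ, fun M τ hM hτ => ?_, fun M τ hM hτ => ?_, ?_⟩
  · obtain ⟨E, h1, h2⟩ := dim_part hn (P := fun x : Fin n → ℤ => Admissible x ∧
      (rad x : ℝ) ^ M < height x) (fun x hx => hx.1) (div_nonneg (κ_nonneg hn) hM.le) hτ
      (hcount_all hn hM) φ
    rw [div_div] at h1
    refine ⟨E, h1, fun ξ hξ A => (h2 ξ hξ A).subset ?_⟩
    rintro x ⟨h3, h4⟩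
    exact ⟨h3, h3.1, not_le.1 h4⟩
  · have hs : 0 ≤ (1 - 1 / (n : ℝ)) / M := by
      have h3 : (3 : ℝ) ≤ n := by exact_mod_cast hn
      refine div_nonneg ?_ hM.le
      rw [sub_nonneg, div_le_one (by linarith)]
      linarith
    obtain ⟨E, h1, h2⟩ := dim_part hn (P := fun x : Fin n → ℤ => (Admissible x ∧
      (rad x : ℝ) ^ M < height x) ∧ ∀ i j, i ≠ j → IsCoprime (x i) (x j)) (fun x hx => hx.1.1)
      hs hτ (hcount_coprime hn hM) φ
    rw [div_div] at h1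
    refine ⟨E, h1, fun ξ hξ A => (h2 ξ hξ A).subset ?_⟩
    rintro x ⟨h3, h4, h5⟩
    exact ⟨h3, ⟨h3.1, not_le.1 h5⟩, h4⟩
  · intro _ μ C₀ m hμ M τ hM hlt
    have h := ae_part μ hμ hn (P := fun x : Fin n → ℤ => Admissible x ∧
      (rad x : ℝ) ^ M < height x) (fun x hx => hx.1) (div_nonneg (κ_nonneg hn) hM.le) hlt
      (hcount_all hn hM) φ
    filter_upwards [h] with ξ hξ A
    refine (hξ A).subset ?_
    rintro x ⟨h3, h4⟩
    exact ⟨h3, h3.1, not_le.1 h4⟩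

end Pool.Agent.Results.MP_a95293_nt.TuplesNearAPoint
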